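import Pool.Agent.Helper74.DR.St

/-! # Project DR, module HGT: the possible heights for one type of brackets -/

set_option autoImplicit false

namespace Pool.Agent.Helper19.DR

open Pool.Agent.Helper74.DR

/-- heights -/
def H : List (Option (Unit × Bool)) → ℕ → Prop
  | [], k => k = 0
  | some (_, true) :: w, k => H w (k + 1)
  | some (_, false) :: w, k => ∃ k', k = k' + 1 ∧ H w k'
  | none :: w, k => H w (k + 1) ∨ ∃ k', k = k' + 1 ∧ H w k'

theorem tr_iff_H (w : List (Option (Unit × Bool))) : ∀ σ : List (Option Unit),
    Tr w σ [] ↔ H w σ.length := by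
  induction w with
  | nil =>
    intro σ
    rw [tr_nil]
    simp [H]
  | cons y w ih =>
    intro σ
    rcases y with _ | ⟨t, b⟩
    · rw [tr_jk, ih]
      simp only [H, List.length_cons]
      apply or_congr Iff.rfl
      constructor
      · rintro ⟨x, σ', rfl, h⟩
        exact ⟨σ'.length, by simp, (ih σ').1 h⟩
      · rintro ⟨k', hk, h⟩
        rcases σ with _ | ⟨x, σ'⟩
        · simp at hk
        · simp only [List.length_cons, Nat.add_right_cancel_iff] at hk
          subst hk
          exact ⟨x, σ', rfl, (ih σ').2 h⟩
    · cases b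
      · rw [tr_cl]
        simp only [H]
        constructor
        · rintro ⟨x, σ', rfl, -, h⟩
          exact ⟨σ'.length, by simp, (ih σ').1 h⟩
        · rintro ⟨k', hk, h⟩
          rcases σ with _ | ⟨x, σ'⟩
          · simp at hk
          · simp only [List.length_cons, Nat.add_right_cancel_iff] at hk
            subst hk
            refine ⟨x, σ', rfl, ?_, (ih σ').2 h⟩
            rcases x with _ | ⟨⟨⟩⟩
            · exact Or.inl rfl
            · exact Or.inr rfl
      · rw [tr_op, ih]
        simp [H]

theorem lh_none (w : List (Option (Unit × Bool))) : ∀ c : ℕ × ℕ,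
    lh w none = some c → False := by
  intro c
  cases w <;> simp [lh]

theorem key (w : List (Option (Unit × Bool))) : ∀ l m : ℕ, l ≤ m → l % 2 = m % 2 →
    ((∃ k, l ≤ k ∧ k ≤ m ∧ k % 2 = l % 2 ∧ H w k) ↔ ∃ m', lh w (some (l, m)) = some (0, m')) := by
  induction w with
  | nil =>
    intro l m hlm h2
    simp only [H, lh, Option.some.injEq, Prod.mk.injEq]
    constructor
    · rintro ⟨k, h1, _, _, rfl⟩
      exact ⟨m, by omega, rfl⟩
    · rintro ⟨m', rfl, rfl⟩
      exact ⟨0, le_refl _, hlm, rfl, rfl⟩
  | cons y w ih =>
    intro l m hlm h2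
    rcases y with _ | ⟨t, b⟩
    · -- joker
      simp only [H, lh]
      rw [← ih _ _ (by split_ifs <;> omega) (by split_ifs <;> omega)]
      constructor
      · rintro ⟨k, h1, h3, h4, h5 | ⟨k', rfl, h5⟩⟩
        · exact ⟨k + 1, by split_ifs <;> omega, by omega, by split_ifs <;> omega, h5⟩
        · exact ⟨k', by split_ifs <;> omega, by omega, by split_ifs <;> omega, h5⟩
      · rintro ⟨k, h1, h3, h4, h5⟩
        by_cases hk : k + 1 ≤ m
        · refine ⟨k + 1, by split_ifs at h1 h4 <;> omega, hk, by split_ifs at h1 h4 <;> omega,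
            Or.inr ⟨k, rfl, h5⟩⟩
        · have hk' : k = m + 1 := by split_ifs at h1 h4 <;> omega
          subst hk'
          exact ⟨m, hlm, le_refl _, h2.symm, Or.inl h5⟩
    · cases b
      · -- closing
        simp only [H, lh]
        by_cases hm : m = 0
        · subst hm
          simp only [if_true]
          constructor
          · rintro ⟨k, h1, h3, h4, k', rfl, h5⟩
            omega
          · rintro ⟨m', hm'⟩
            exact (lh_none w _ hm').elim
        · simp only [hm, if_false]
          rw [← ih _ _ (by split_ifs <;> omega) (by split_ifs <;> omega)]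
          constructor
          · rintro ⟨k, h1, h3, h4, k', rfl, h5⟩
            exact ⟨k', by split_ifs <;> omega, by omega, by split_ifs <;> omega, h5⟩
          · rintro ⟨k, h1, h3, h4, h5⟩
            exact ⟨k + 1, by split_ifs at h1 h4 <;> omega, by omega,
              by split_ifs at h1 h4 <;> omega, k, rfl, h5⟩
      · -- opening
        simp only [H, lh]
        rw [← ih _ _ (by omega) (by omega)]
        constructor
        · rintro ⟨k, h1, h3, h4, h5⟩
          exact ⟨k + 1, by omega, by omega, by omega, h5⟩
        · rintro ⟨k, h1, h3, h4, h5⟩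
          obtain ⟨j, rfl⟩ : ∃ j, k = j + 1 := ⟨k - 1, by omega⟩
          exact ⟨j, by omega, by omega, by omega, h5⟩

theorem hHGT (hTRE : StTRE) : StHGT := by
  intro w
  rw [hTRE Unit w, tr_iff_H w [], ← key w 0 0 (le_refl _) rfl]
  constructor
  · intro h
    exact ⟨0, le_refl _, le_refl _, rfl, h⟩
  · rintro ⟨k, h1, h3, _, h5⟩
    have : k = 0 := by omega
    subst this
    exact h5

end Pool.Agent.Helper19.DR
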